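import Mathlib
import Pool.Agent.H759R2.Kad.Props

/-! Operators with small entries are small on the polynomials `wv`. -/

open scoped ComplexOrder InnerProductSpace ComplexConjugate
open Finset

noncomputable section

namespace H759R2.Kad

universe u v

namespace Phop

variable {ι : Type} [Fintype ι] [DecidableEq ι] {R : ℕ} [NeZero R]
variable {H : Type v} [NormedAddCommGroup H] [InnerProductSpace ℂ H]

lemma cproj_cproj (c c' : ι) (h : c ≠ c') (z : HH ι H) : cproj c (cproj c' z) = 0 := by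
  ext i
  rw [cproj_apply]
  by_cases hi : i = c
  · rw [if_pos hi, cproj_apply, if_neg h]
    rfl
  · rw [if_neg hi]
    rfl

lemma expand_inner (h1 : St_orth) (S : HH ι H →L[ℂ] HH ι H) (Y : (ι → ZMod R) → HH ι H) :
    ∑ ω : ι → ZMod R, ⟪∑ f, Chi f ω • Y f, S (∑ f, Chi f ω • Y f)⟫_ℂ
      = ((Fintype.card (ι → ZMod R) : ℕ) : ℂ) * ∑ f, ⟪Y f, S (Y f)⟫_ℂ := by
  have e : ∀ ω : ι → ZMod R, ⟪∑ f, Chi f ω • Y f, S (∑ f, Chi f ω • Y f)⟫_ℂ
      = ∑ f, ∑ g, (conj (Chi f ω) * Chi g ω) * ⟪Y f, S (Y g)⟫_ℂ := by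
    intro ω
    rw [map_sum, sum_inner]
    refine Finset.sum_congr rfl fun f _ => ?_
    rw [inner_sum]
    refine Finset.sum_congr rfl fun g _ => ?_
    rw [map_smul, inner_smul_left, inner_smul_right]
    ring
  rw [Finset.sum_congr rfl (fun ω _ => e ω), Finset.sum_comm, Finset.mul_sum]
  refine Finset.sum_congr rfl fun f _ => ?_
  rw [Finset.sum_comm]
  have e2 : ∀ g : ι → ZMod R, ∑ ω : ι → ZMod R, (conj (Chi f ω) * Chi g ω) * ⟪Y f, S (Y g)⟫_ℂ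
      = (if f = g then ((Fintype.card (ι → ZMod R) : ℕ) : ℂ) else 0) * ⟪Y f, S (Y g)⟫_ℂ := by
    intro g
    rw [← Finset.sum_mul, h1 ι R f g]
  rw [Finset.sum_congr rfl (fun g _ => e2 g)]
  rw [Finset.sum_eq_single f]
  · rw [if_pos rfl]
  · intro g _ hg
    rw [if_neg (Ne.symm hg), zero_mul]
  · intro h
    exact absurd (mem_univ f) h

lemma inner_bound (S : HH ι H →L[ℂ] HH ι H) (b : ℝ) (hb : 0 ≤ b)
    (hS : ∀ (c c' : ι) (u : H), ‖S (inj c' u) c‖ ≤ b * ‖u‖) (Y : HH ι H) (s : Finset ι) (n : ℕ)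
    (hs : ∀ c, c ∉ s → Y c = 0) (hn : s.card ≤ n) :
    ‖⟪Y, S Y⟫_ℂ‖ ≤ b * n * ‖Y‖ ^ 2 := by
  have h1 : ∀ c, (S Y) c = ∑ c', S (inj c' (Y c')) c := by
    intro c
    conv_lhs => rw [← sum_inj Y]
    rw [map_sum]
    simp
  have h2 : ‖⟪Y, S Y⟫_ℂ‖ ≤ b * (∑ c, ‖Y c‖) ^ 2 := by
    rw [PiLp.inner_apply]
    calc ‖∑ c, ⟪Y c, (S Y) c⟫_ℂ‖ ≤ ∑ c, ‖⟪Y c, (S Y) c⟫_ℂ‖ := norm_sum_le _ _
      _ ≤ ∑ c, ‖Y c‖ * (∑ c', b * ‖Y c'‖) := by
        refine Finset.sum_le_sum fun c _ => ?_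
        refine (norm_inner_le_norm _ _).trans ?_
        refine mul_le_mul_of_nonneg_left ?_ (norm_nonneg _)
        rw [h1 c]
        refine (norm_sum_le _ _).trans ?_
        exact Finset.sum_le_sum fun c' _ => hS c c' (Y c')
      _ = b * (∑ c, ‖Y c‖) ^ 2 := by
        rw [← Finset.mul_sum, ← Finset.sum_mul]
        ring
  have h3 : ∑ c, ‖Y c‖ = ∑ c ∈ s, ‖Y c‖ := by
    symm
    refine Finset.sum_subset (Finset.subset_univ s) ?_
    intro c _ hc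
    rw [hs c hc, norm_zero]
  have h4 : (∑ c ∈ s, ‖Y c‖) ^ 2 ≤ (s.card : ℝ) * ∑ c ∈ s, ‖Y c‖ ^ 2 :=
    sq_sum_le_card_mul_sum_sq
  have h5 : ∑ c ∈ s, ‖Y c‖ ^ 2 ≤ ‖Y‖ ^ 2 := by
    rw [PiLp.norm_sq_eq_of_L2]
    exact Finset.sum_le_sum_of_subset_of_nonneg (Finset.subset_univ s) (fun c _ _ => sq_nonneg _)
  have h6 : (0 : ℝ) ≤ ∑ c ∈ s, ‖Y c‖ ^ 2 := Finset.sum_nonneg (fun c _ => sq_nonneg _)
  have h7 : (s.card : ℝ) ≤ n := by exact_mod_cast hn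
  have h8 : (s.card : ℝ) * ∑ c ∈ s, ‖Y c‖ ^ 2 ≤ n * ‖Y‖ ^ 2 :=
    mul_le_mul h7 h5 h6 (Nat.cast_nonneg n)
  rw [h3] at h2
  calc ‖⟪Y, S Y⟫_ℂ‖ ≤ b * (∑ c ∈ s, ‖Y c‖) ^ 2 := h2
    _ ≤ b * (n * ‖Y‖ ^ 2) := mul_le_mul_of_nonneg_left (h4.trans h8) hb
    _ = b * n * ‖Y‖ ^ 2 := by ring

end Phop

theorem prove_phop (h1 : St_orth) (h2 : St_expand.{v}) : St_phop.{v} := by
  intro ι _ _ R _ H _ _ V S b hb hS θ k hk
  obtain ⟨Y, hY, hsupp, hzero⟩ := h2 ι R (HH ι H) cproj V.toLinearMap θ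
    (fun c c' h z => Phop.cproj_cproj c c' h z) k hk
  have e1 : ∑ ω : ι → ZMod R,
      ⟪wv cproj V.toLinearMap θ ω k, S (wv cproj V.toLinearMap θ ω k)⟫_ℂ
      = ((Fintype.card (ι → ZMod R) : ℕ) : ℂ) * ∑ f, ⟪Y f, S (Y f)⟫_ℂ := by
    rw [← Phop.expand_inner h1 S Y]
    exact Finset.sum_congr rfl fun ω _ => by rw [hY ω]
  have e2 : ∑ ω : ι → ZMod R, ‖wv cproj V.toLinearMap θ ω k‖ ^ 2
      = ((Fintype.card (ι → ZMod R) : ℕ) : ℝ) * ∑ f, ‖Y f‖ ^ 2 := by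
    have e3 := Phop.expand_inner h1 (ContinuousLinearMap.id ℂ (HH ι H)) Y
    have e4 : ((∑ ω : ι → ZMod R, ‖wv cproj V.toLinearMap θ ω k‖ ^ 2 : ℝ) : ℂ)
        = ((((Fintype.card (ι → ZMod R) : ℕ) : ℝ) * ∑ f, ‖Y f‖ ^ 2 : ℝ) : ℂ) := by
      push_cast
      calc (∑ ω : ι → ZMod R, (‖wv cproj V.toLinearMap θ ω k‖ : ℂ) ^ 2)
          = ∑ ω : ι → ZMod R, ⟪∑ f, Chi f ω • Y f,
              (ContinuousLinearMap.id ℂ (HH ι H)) (∑ f, Chi f ω • Y f)⟫_ℂ := by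
            refine Finset.sum_congr rfl fun ω _ => ?_
            rw [hY ω, ContinuousLinearMap.id_apply, inner_self_eq_norm_sq_to_K]
            rfl
        _ = _ := e3
        _ = _ := by
            congr 1
            refine Finset.sum_congr rfl fun f _ => ?_
            rw [ContinuousLinearMap.id_apply, inner_self_eq_norm_sq_to_K]
            rfl
    exact_mod_cast e4
  rw [e1, e2, norm_mul, Complex.norm_natCast]
  have hG : (0 : ℝ) ≤ ((Fintype.card (ι → ZMod R) : ℕ) : ℝ) := Nat.cast_nonneg _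
  have h3 : ‖∑ f, ⟪Y f, S (Y f)⟫_ℂ‖ ≤ ∑ f, b * (k + 1) * ‖Y f‖ ^ 2 := by
    refine (norm_sum_le _ _).trans (Finset.sum_le_sum fun f _ => ?_)
    by_cases hf : Y f = 0
    · rw [hf, inner_zero_left, norm_zero, norm_zero]
      simp
    · have := Phop.inner_bound S b hb hS (Y f) (univ.filter fun c => f c ≠ 0) (k + 1) ?_
        (hsupp f hf)
      · push_cast at this
        exact this
      · intro c hc
        have hc0 : f c = 0 := by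
          by_contra h
          exact hc (mem_filter.2 ⟨mem_univ c, h⟩)
        have h4 := hzero f c hc0
        have h5 : (cproj c (Y f)) c = (0 : HH ι H) c := by rw [h4]
        rw [cproj_apply, if_pos rfl] at h5
        exact h5
  rw [← Finset.mul_sum] at h3
  calc ((Fintype.card (ι → ZMod R) : ℕ) : ℝ) * ‖∑ f, ⟪Y f, S (Y f)⟫_ℂ‖
      ≤ ((Fintype.card (ι → ZMod R) : ℕ) : ℝ) * (b * (k + 1) * ∑ f, ‖Y f‖ ^ 2) :=
        mul_le_mul_of_nonneg_left h3 hG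
    _ = _ := by ring

end H759R2.Kad
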